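import Mathlib

/-!
# Quadratic elements commute with coprime elements

`V` an abelian normal subgroup of exponent `p`, `p` odd; `a` acts quadratically on `V`, `h` acts with order prime to `p`, and `h` commutes on `V` with `a h a⁻¹` and `a² h a⁻²`. Then `a` and `h` commute on `V`.
-/

set_option autoImplicit false

open scoped commutatorElement

namespace Pool.Agent.Helper46.BM

universe u

theorem zero_of_coprime {A : Type*} [AddGroup A] {p m : ℕ} (h : m.Coprime p) {c : A} (h1 : m • c = 0) (h2 : p • c = 0) :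
    c = 0 := by
  rw [← AddMonoid.addOrderOf_eq_one_iff]
  exact Nat.eq_one_of_dvd_coprimes h (addOrderOf_dvd_of_nsmul_eq_zero h1) (addOrderOf_dvd_of_nsmul_eq_zero h2)

theorem ring_quad {R : Type*} [Ring R] {p : ℕ} (hp : p.Prime) (hp2 : p ≠ 2) (hR : ∀ r : R, p • r = 0)
    (n H : R) (hn : n * n = 0) {m : ℕ} (hm : m.Coprime p) (hH : H ^ m = 1)
    (c1 : H * ((1 + n) * H * (1 - n)) = (1 + n) * H * (1 - n) * H)
    (c2 : H * ((1 + n) * (1 + n) * H * ((1 - n) * (1 - n))) = (1 + n) * (1 + n) * H * ((1 - n) * (1 - n)) * H) :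
    H * n = n * H := by
  have h2 : (2 : ℕ).Coprime p := by
    rw [Nat.coprime_primes Nat.prime_two hp]
    exact fun h => hp2 h.symm
  set c := n * H - H * n with hc
  set d := n * H * n with hd
  have e1 : (1 + n) * H * (1 - n) = H + c - d := by rw [hc, hd]; noncomm_ring
  have e2 : (1 + n) * (1 + n) * H * ((1 - n) * (1 - n)) = H + (c + c) - (d + d + (d + d)) := by
    have h3 : (1 + n) * (1 + n) = 1 + (n + n) := by
      have : (1 + n) * (1 + n) = 1 + (n + n) + n * n := by noncomm_ring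
      rw [this, hn, add_zero]
    have h4 : (1 - n) * (1 - n) = 1 - (n + n) := by
      have : (1 - n) * (1 - n) = 1 - (n + n) + n * n := by noncomm_ring
      rw [this, hn, add_zero]
    rw [h3, h4, hc, hd]; noncomm_ring
  rw [e1] at c1
  rw [e2] at c2
  -- commutators
  have f1 : (H * c - c * H) - (H * d - d * H) = 0 := by
    have : H * (H + c - d) - (H + c - d) * H = (H * c - c * H) - (H * d - d * H) := by noncomm_ring
    rw [← this, c1, sub_self]
  have f2 : ((H * c - c * H) + (H * c - c * H)) - ((H * d - d * H) + (H * d - d * H) + ((H * d - d * H) + (H * d - d * H))) = 0 := by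
    have : H * (H + (c + c) - (d + d + (d + d))) - (H + (c + c) - (d + d + (d + d))) * H =
        ((H * c - c * H) + (H * c - c * H)) - ((H * d - d * H) + (H * d - d * H) + ((H * d - d * H) + (H * d - d * H))) := by
      noncomm_ring
    rw [← this, c2, sub_self]
  have f3 : H * c - c * H = H * d - d * H := sub_eq_zero.1 f1
  have f4 : H * d - d * H = 0 := by
    apply zero_of_coprime h2 _ (hR _)
    rw [f3] at f2
    set t := H * d - d * H
    have : t + t - (t + t + (t + t)) = -(2 • t) := by rw [two_nsmul]; abel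
    rw [this] at f2
    exact neg_eq_zero.1 f2
  have f5 : H * c = c * H := by
    rw [f4] at f3
    exact sub_eq_zero.1 f3
  have f6 : ∀ k : ℕ, n * H ^ (k + 1) - H ^ (k + 1) * n = (k + 1) • (H ^ k * c) := by
    intro k
    induction k with
    | zero => simp [hc]
    | succ k ih =>
      have g1 : n * H ^ (k + 1 + 1) - H ^ (k + 1 + 1) * n = (n * H ^ (k + 1) - H ^ (k + 1) * n) * H + H ^ (k + 1) * c := by
        rw [hc, pow_succ H (k + 1)]; noncomm_ring
      have g2 : H ^ k * c * H = H ^ (k + 1) * c := by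
        rw [mul_assoc, ← f5, ← mul_assoc, ← pow_succ]
      rw [g1, ih, smul_mul_assoc, g2, ← succ_nsmul]
  have f7 : c = 0 := by
    rcases Nat.eq_zero_or_pos m with h0 | h0
    · exfalso
      rw [h0, Nat.coprime_zero_left] at hm
      exact hp.one_lt.ne' hm
    · obtain ⟨k, rfl⟩ := Nat.exists_eq_succ_of_ne_zero h0.ne'
      have g1 := f6 k
      rw [Nat.succ_eq_add_one] at hH hm
      rw [hH, mul_one, one_mul, sub_self] at g1
      have g2 : H ^ k * c = 0 := zero_of_coprime hm g1.symm (hR _)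
      have g3 : H * (H ^ k * c) = c := by rw [← mul_assoc, ← pow_succ', hH, one_mul]
      rw [← g3, g2, mul_zero]
  exact (sub_eq_zero.1 f7).symm

/-- conjugation on an abelian normal subgroup, as a homomorphism to the endomorphism ring -/
theorem exists_action {Y : Type u} [Group Y] (V : Subgroup Y) [V.Normal] (hV : ∀ x ∈ V, ∀ y ∈ V, x * y = y * x) :
    ∃ (R : Type u) (_ : Ring R) (φ : Y →* R) (ev : R → V → V), (∀ y v, ((ev (φ y) v : V) : Y) = y * v * y⁻¹) ∧
      (∀ r s : R, (∀ v, ev r v = ev s v) → r = s) ∧ (∀ r s v, ev (r * s) v = ev r (ev s v)) ∧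
      (∀ r s v, ev (r - s) v = ev r v * (ev s v)⁻¹) ∧ (∀ v, ev 1 v = v) ∧ (∀ v, ev 0 v = 1) ∧
      (∀ (k : ℕ) r v, ev (k • r) v = (ev r v) ^ k) := by
  let _ : CommGroup V := { (inferInstance : Group V) with mul_comm := fun x y => Subtype.ext (hV x x.2 y y.2) }
  let φ : Y →* AddMonoid.End (Additive V) :=
    { toFun := fun y => MonoidHom.toAdditive ((MulAut.conjNormal y : MulAut V).toMonoidHom)
      map_one' := by
        apply AddMonoidHom.ext
        intro v
        change Additive.ofMul ((MulAut.conjNormal (1 : Y) : MulAut V) v.toMul) = v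
        rw [map_one]
        rfl
      map_mul' := by
        intro x y
        apply AddMonoidHom.ext
        intro v
        change Additive.ofMul ((MulAut.conjNormal (x * y) : MulAut V) v.toMul) = _
        rw [map_mul]
        rfl }
  refine ⟨AddMonoid.End (Additive V), inferInstance, φ, fun r v => (r (Additive.ofMul v)).toMul, ?_, ?_, ?_, ?_, ?_, ?_, ?_⟩
  · intro y v
    exact MulAut.conjNormal_apply y v
  · intro r s h
    apply AddMonoidHom.ext
    intro v
    exact h (Additive.toMul v)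
  · intro r s v; rfl
  · intro r s v
    change Additive.toMul (r (Additive.ofMul v) - s (Additive.ofMul v)) = _
    rw [sub_eq_add_neg]
    rfl
  · intro v; rfl
  · intro v; rfl
  · intro k r v
    rfl

/-- The group version. -/
theorem quad_commutes {Y : Type u} [Group Y] (V : Subgroup Y) [V.Normal] (hV : ∀ x ∈ V, ∀ y ∈ V, x * y = y * x)
    {p : ℕ} (hp : p.Prime) (hp2 : p ≠ 2) (hVp : ∀ v ∈ V, v ^ p = 1) (a h : Y)
    (ha : ∀ v ∈ V, (⁅a, ⁅a, v⁆⁆ : Y) = 1) {m : ℕ} (hm : m.Coprime p) (hh : ∀ v ∈ V, h ^ m * v = v * h ^ m)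
    (c1 : ∀ v ∈ V, h * (a * h * a⁻¹) * v * (h * (a * h * a⁻¹))⁻¹ = (a * h * a⁻¹ * h) * v * (a * h * a⁻¹ * h)⁻¹)
    (c2 : ∀ v ∈ V, h * (a * a * h * (a * a)⁻¹) * v * (h * (a * a * h * (a * a)⁻¹))⁻¹ =
      (a * a * h * (a * a)⁻¹ * h) * v * (a * a * h * (a * a)⁻¹ * h)⁻¹) :
    ∀ v ∈ V, (a * h) * v * (a * h)⁻¹ = (h * a) * v * (h * a)⁻¹ := by
  obtain ⟨R, _, φ, ev, h1, hext, hmul, hsub, hone, hzero, hnsmul⟩ := exists_action V hV
  have hφ : ∀ x y : Y, (∀ v ∈ V, x * v * x⁻¹ = y * v * y⁻¹) → φ x = φ y := by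
    intro x y hxy
    apply hext
    intro v
    apply Subtype.ext
    rw [h1, h1]
    exact hxy v v.2
  set n := φ a - 1 with hn
  have hφa : φ a = 1 + n := by rw [hn]; abel
  have hnn : n * n = 0 := by
    apply hext
    intro v
    apply Subtype.ext
    rw [hmul, hzero]
    have e : ∀ w : V, ((ev n w : V) : Y) = ⁅a, (w : Y)⁆ := by
      intro w
      rw [hn, hsub, hone, commutatorElement_def, Subgroup.coe_mul, h1]
      rfl
    rw [e, e]
    exact ha v v.2
  have hφa' : φ a⁻¹ = 1 - n := by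
    have e1 : φ a * φ a⁻¹ = 1 := by rw [← map_mul, mul_inv_cancel, map_one]
    have e2 : (1 - n) * (1 + n) = 1 := by
      have : (1 - n) * (1 + n) = 1 - n * n := by noncomm_ring
      rw [this, hnn, sub_zero]
    calc φ a⁻¹ = ((1 - n) * (1 + n)) * φ a⁻¹ := by rw [e2, one_mul]
      _ = (1 - n) * (φ a * φ a⁻¹) := by rw [hφa, mul_assoc]
      _ = _ := by rw [e1, mul_one]
  have hR : ∀ r : R, p • r = 0 := by
    intro r
    apply hext
    intro v
    rw [hnsmul, hzero]
    exact Subtype.ext (hVp _ (ev r v).2)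
  have hH : φ h ^ m = 1 := by
    rw [← map_pow, ← map_one φ]
    apply hφ
    intro v hv
    rw [hh v hv, mul_inv_cancel_right, one_mul, inv_one, mul_one]
  have k1 := hφ _ _ c1
  have k2 := hφ _ _ c2
  have i2 : φ (a * a)⁻¹ = (1 - n) * (1 - n) := by
    rw [mul_inv_rev, map_mul, hφa']
  simp only [map_mul, hφa', hφa, i2] at k1 k2
  have key := ring_quad hp hp2 hR n (φ h) hnn hm hH k1 k2
  have key2 : φ (a * h) = φ (h * a) := by
    rw [map_mul, map_mul, hφa, add_mul, mul_add, one_mul, mul_one, key]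
  intro v hv
  have := congrArg (fun r => ((ev r ⟨v, hv⟩ : V) : Y)) key2
  simpa only [h1] using this

/-- The group version, with squares. -/
theorem quad_group {Y : Type u} [Group Y] {p : ℕ} [hp : Fact p.Prime] (hp2 : p ≠ 2) (V : Subgroup Y) [V.Normal]
    (hV : ∀ x ∈ V, ∀ y ∈ V, x * y = y * x) (hVp : ∀ v ∈ V, v ^ p = 1) (a h : Y)
    (ha : ∀ v ∈ V, (⁅a, ⁅a, v⁆⁆ : Y) = 1) {m : ℕ} (hm : ∀ v ∈ V, h ^ m * v = v * h ^ m) (hmp : m.Coprime p)
    (h1 : ∀ v ∈ V, (h * (a * h * a⁻¹)) * v * (h * (a * h * a⁻¹))⁻¹ = ((a * h * a⁻¹) * h) * v * ((a * h * a⁻¹) * h)⁻¹)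
    (h2 : ∀ v ∈ V, (h * (a ^ 2 * h * (a ^ 2)⁻¹)) * v * (h * (a ^ 2 * h * (a ^ 2)⁻¹))⁻¹ =
      ((a ^ 2 * h * (a ^ 2)⁻¹) * h) * v * ((a ^ 2 * h * (a ^ 2)⁻¹) * h)⁻¹) :
    ∀ v ∈ V, (a * h) * v * (a * h)⁻¹ = (h * a) * v * (h * a)⁻¹ := by
  rw [pow_two] at h2
  exact quad_commutes V hV hp.out hp2 hVp a h ha hmp hm h1 h2

end Pool.Agent.Helper46.BM
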