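import Mathlib

/-!
# Thompson replacement: quadratic action

`quad_cen`: `T` a finite `p`-group, `V` an abelian normal subgroup such that every element of `T` which acts quadratically on `V` centralises `V`. Then every abelian subgroup of `T` of maximal order centralises `V`.
-/

set_option autoImplicit false

open Subgroup
open scoped commutatorElement

namespace Pool.Agent.Helper46.BM

section

variable {T : Type*} [Group T]

/-- the commutator identity behind the replacement map: if `[a, v] = [b, v] d` with `d` commuting with `v` and with all of `A`, then `b⁻¹ a` commutes with all `[x, v]`, `x ∈ A` -/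
theorem key_comm (A : Subgroup T) (hA : ∀ x ∈ A, ∀ y ∈ A, x * y = y * x) {a b v d : T} (ha : a ∈ A) (hb : b ∈ A)
    (hd : ∀ x ∈ A, x * d = d * x) (hvd : v * d = d * v) (h : (⁅a, v⁆ : T) = ⁅b, v⁆ * d) (x : T) (hx : x ∈ A) :
    (b⁻¹ * a) * ⁅x, v⁆ = ⁅x, v⁆ * (b⁻¹ * a) := by
  have h1 : a * v * a⁻¹ = b * v * b⁻¹ * d := by
    have h2 : a * v * a⁻¹ * v⁻¹ = b * v * b⁻¹ * v⁻¹ * d := by
      simpa only [commutatorElement_def] using h
    have h3 : a * v * a⁻¹ = b * v * b⁻¹ * v⁻¹ * d * v := by rw [← h2]; group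
    rw [h3, mul_assoc _ d v, ← hvd, mul_assoc (b * v * b⁻¹), ← mul_assoc v⁻¹, inv_mul_cancel, one_mul]
  set c := b⁻¹ * a with hc
  have hcA : c ∈ A := A.mul_mem (A.inv_mem hb) ha
  have h2 : c * v * c⁻¹ = v * d := by
    have h3 : c * v * c⁻¹ = b⁻¹ * (a * v * a⁻¹) * b := by rw [hc]; group
    rw [h3, h1]
    have h4 := hd b hb
    calc b⁻¹ * (b * v * b⁻¹ * d) * b = v * b⁻¹ * (d * b) := by group
      _ = v * b⁻¹ * (b * d) := by rw [h4]
      _ = v * d := by group
  have h3 : c * ⁅x, v⁆ * c⁻¹ = ⁅x, v⁆ := by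
    have h4 : c * x * c⁻¹ = x := by rw [hA c hcA x hx, mul_inv_cancel_right]
    have h5 : c * ⁅x, v⁆ * c⁻¹ = ⁅c * x * c⁻¹, c * v * c⁻¹⁆ := by
      rw [commutatorElement_def, commutatorElement_def]; group
    rw [h5, h4, h2, commutatorElement_def, commutatorElement_def]
    have h6 := hd x hx
    calc x * (v * d) * x⁻¹ * (v * d)⁻¹ = x * v * (d * x⁻¹) * d⁻¹ * v⁻¹ := by group
      _ = x * v * (x⁻¹ * d) * d⁻¹ * v⁻¹ := by
        have h7 : d * x⁻¹ = x⁻¹ * d := by
          calc d * x⁻¹ = x⁻¹ * (x * d) * x⁻¹ := by group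
            _ = x⁻¹ * (d * x) * x⁻¹ := by rw [h6]
            _ = _ := by group
        rw [h7]
      _ = _ := by group
  calc c * ⁅x, v⁆ = c * ⁅x, v⁆ * c⁻¹ * c := by group
    _ = _ := by rw [h3]

/-- The product of two commuting abelian subgroups is abelian. -/
theorem sup_abelian (M C : Subgroup T) (hM : ∀ x ∈ M, ∀ y ∈ M, x * y = y * x) (hC : ∀ x ∈ C, ∀ y ∈ C, x * y = y * x)
    (hMC : ∀ x ∈ M, ∀ y ∈ C, x * y = y * x) : ∀ x ∈ M ⊔ C, ∀ y ∈ M ⊔ C, x * y = y * x := by
  have h1 : M ⊔ C ≤ Subgroup.centralizer (M : Set T) := sup_le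
    (fun x hx => Subgroup.mem_centralizer_iff.2 fun y hy => hM y hy x hx)
    (fun x hx => Subgroup.mem_centralizer_iff.2 fun y hy => hMC y hy x hx)
  have h2 : M ⊔ C ≤ Subgroup.centralizer (C : Set T) := sup_le
    (fun x hx => Subgroup.mem_centralizer_iff.2 fun y hy => (hMC x hx y hy).symm)
    (fun x hx => Subgroup.mem_centralizer_iff.2 fun y hy => hC y hy x hx)
  have h3 : M ⊔ C ≤ Subgroup.centralizer ((M ⊔ C : Subgroup T) : Set T) := sup_le
    (Subgroup.le_centralizer_iff.1 h1) (Subgroup.le_centralizer_iff.1 h2)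
  intro x hx y hy
  exact Subgroup.mem_centralizer_iff.1 (h3 hy) x hx

/-- **Thompson replacement** for quadratic action: if the elements of `T` acting quadratically on the abelian normal
subgroup `V` centralise `V`, then abelian subgroups of maximal order centralise `V`. -/
theorem quad_cen [Finite T] {p : ℕ} [Fact p.Prime] (hT : IsPGroup p T) (V : Subgroup T) [V.Normal]
    (hV : ∀ x ∈ V, ∀ y ∈ V, x * y = y * x)
    (hq : ∀ a : T, (∀ v ∈ V, (⁅a, ⁅a, v⁆⁆ : T) = 1) → ∀ v ∈ V, a * v = v * a)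
    (A : Subgroup T) (hA : ∀ x ∈ A, ∀ y ∈ A, x * y = y * x)
    (hmax : ∀ B : Subgroup T, (∀ x ∈ B, ∀ y ∈ B, x * y = y * x) → Nat.card B ≤ Nat.card A) :
    ∀ a ∈ A, ∀ v ∈ V, a * v = v * a := by
  suffices h : ∀ (n : ℕ) (A : Subgroup T), (∀ x ∈ A, ∀ y ∈ A, x * y = y * x) →
      (∀ B : Subgroup T, (∀ x ∈ B, ∀ y ∈ B, x * y = y * x) → Nat.card B ≤ Nat.card A) →
      Nat.card V - Nat.card (A ⊓ V : Subgroup T) < n → ∀ a ∈ A, ∀ v ∈ V, a * v = v * a from
    h _ A hA hmax (Nat.lt_succ_self _)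
  intro n
  induction n with
  | zero => intro A _ _ h; omega
  | succ n ih =>
    intro A hA hmax hn
    by_contra hcon
    push Not at hcon
    obtain ⟨a, haA, v1, hv1, hav⟩ := hcon
    obtain ⟨v, hv, hqv⟩ : ∃ v ∈ V, (⁅a, ⁅a, v⁆⁆ : T) ≠ 1 := by
      by_contra h
      push Not at h
      exact hav (hq a h v1 hv1)
    have hcV : ∀ x : T, ∀ w ∈ V, (⁅x, w⁆ : T) ∈ V := by
      intro x w hw
      rw [commutatorElement_def]
      exact V.mul_mem (Subgroup.Normal.conj_mem inferInstance w hw x) (V.inv_mem hw)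
    set M : Subgroup T := Subgroup.closure ((fun x => ⁅x, v⁆) '' (A : Set T)) with hMdef
    have hgen : ∀ x ∈ A, (⁅x, v⁆ : T) ∈ M := fun x hx => Subgroup.subset_closure ⟨x, hx, rfl⟩
    have hMV : M ≤ V := by
      rw [hMdef, Subgroup.closure_le]
      rintro _ ⟨x, _, rfl⟩
      exact hcV x v hv
    set C : Subgroup T := A ⊓ Subgroup.centralizer (M : Set T) with hCdef
    have hMab : ∀ x ∈ M, ∀ y ∈ M, x * y = y * x := fun x hx y hy => hV x (hMV hx) y (hMV hy)
    have hCab : ∀ x ∈ C, ∀ y ∈ C, x * y = y * x := fun x hx y hy => hA x hx.1 y hy.1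
    have hMC : ∀ x ∈ M, ∀ y ∈ C, x * y = y * x := fun x hx y hy => Subgroup.mem_centralizer_iff.1 hy.2 x hx
    have hab : ∀ x ∈ M ⊔ C, ∀ y ∈ M ⊔ C, x * y = y * x := sup_abelian M C hMab hCab hMC
    -- the replacement inequality
    have hcard : Nat.card A ≤ Nat.card (M ⊔ C : Subgroup T) := by
      let C' : Subgroup A := C.subgroupOf A
      let r : A → A := fun x => (QuotientGroup.mk x : A ⧸ C').out
      have hr : ∀ x : A, (QuotientGroup.mk (r x) : A ⧸ C') = QuotientGroup.mk x := fun x => Quotient.out_eq' _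
      have hrC : ∀ x : A, ((r x : T))⁻¹ * (x : T) ∈ C := by
        intro x
        have h1 := QuotientGroup.eq.1 (hr x)
        exact Subgroup.mem_subgroupOf.1 h1
      have hmem : ∀ x : A, (⁅(r x : T), v⁆ : T) * ((r x : T)⁻¹ * (x : T)) ∈ M ⊔ C := fun x =>
        (M ⊔ C).mul_mem (Subgroup.mem_sup_left (hgen _ (r x).2)) (Subgroup.mem_sup_right (hrC x))
      refine Nat.card_le_card_of_injective (fun x : A => (⟨_, hmem x⟩ : (M ⊔ C : Subgroup T))) ?_
      intro x y hxy
      have h1 : (⁅(r x : T), v⁆ : T) * ((r x : T)⁻¹ * (x : T)) = ⁅(r y : T), v⁆ * ((r y : T)⁻¹ * (y : T)) :=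
        congrArg Subtype.val hxy
      set c1 := (r x : T)⁻¹ * (x : T) with hc1
      set c2 := (r y : T)⁻¹ * (y : T) with hc2
      set d := (⁅(r y : T), v⁆ : T)⁻¹ * ⁅(r x : T), v⁆ with hd
      have hd1 : d = c2 * c1⁻¹ := by
        rw [hd]
        calc (⁅(r y : T), v⁆ : T)⁻¹ * ⁅(r x : T), v⁆ = (⁅(r y : T), v⁆ : T)⁻¹ * (⁅(r x : T), v⁆ * c1) * c1⁻¹ := by group
          _ = (⁅(r y : T), v⁆ : T)⁻¹ * (⁅(r y : T), v⁆ * c2) * c1⁻¹ := by rw [h1]
          _ = _ := by group
      have hdM : d ∈ M := M.mul_mem (M.inv_mem (hgen _ (r y).2)) (hgen _ (r x).2)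
      have hdC : d ∈ C := by
        rw [hd1]
        exact C.mul_mem (hrC y) (C.inv_mem (hrC x))
      have h2 : (r y)⁻¹ * r x ∈ C' := by
        refine Subgroup.mem_subgroupOf.2 ⟨A.mul_mem (A.inv_mem (r y).2) (r x).2, ?_⟩
        have h3 : M ≤ Subgroup.centralizer {((r y : T)⁻¹ * (r x : T))} := by
          rw [hMdef, Subgroup.closure_le]
          rintro _ ⟨z, hz, rfl⟩
          refine Subgroup.mem_centralizer_iff.2 ?_
          rintro _ rfl
          refine key_comm A hA (r x).2 (r y).2 (d := d) (fun z hz => hA z hz d hdC.1) (hV v hv d (hMV hdM)) ?_ z hz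
          rw [hd]; group
        refine Subgroup.mem_centralizer_iff.2 fun m hm => ?_
        exact (Subgroup.mem_centralizer_iff.1 (h3 hm) _ rfl).symm
      have h3 : (QuotientGroup.mk y : A ⧸ C') = QuotientGroup.mk x := by
        rw [← hr y, ← hr x]
        exact QuotientGroup.eq.2 h2
      have h4 : r x = r y := by
        change (QuotientGroup.mk x : A ⧸ C').out = (QuotientGroup.mk y : A ⧸ C').out
        rw [h3]
      have h5 : c1 = c2 := by
        rw [h4] at h1
        exact mul_left_cancel h1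
      apply Subtype.ext
      have h6 : (r x : T) * c1 = (r y : T) * c2 := by rw [h5, h4]
      calc (x : T) = (r x : T) * c1 := by rw [hc1]; group
        _ = (r y : T) * c2 := h6
        _ = (y : T) := by rw [hc2]; group
    have hceq : Nat.card (M ⊔ C : Subgroup T) = Nat.card A := le_antisymm (hmax _ hab) hcard
    have hlt : A ⊓ V < (M ⊔ C) ⊓ V := by
      refine lt_of_le_of_ne ?_ ?_
      · intro x hx
        refine ⟨Subgroup.mem_sup_right ⟨hx.1, Subgroup.mem_centralizer_iff.2 fun m hm => hV m (hMV hm) x hx.2⟩, hx.2⟩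
      · intro h
        have h1 : (⁅a, v⁆ : T) ∈ A ⊓ V := by
          rw [h]
          exact ⟨Subgroup.mem_sup_left (hgen a haA), hcV a v hv⟩
        apply hqv
        rw [commutatorElement_eq_one_iff_mul_comm]
        exact hA a haA _ h1.1
    have hlt2 : Nat.card (A ⊓ V : Subgroup T) < Nat.card ((M ⊔ C) ⊓ V : Subgroup T) :=
      Set.Finite.card_lt_card (Set.toFinite _) hlt
    have hle2 : Nat.card ((M ⊔ C) ⊓ V : Subgroup T) ≤ Nat.card V := Subgroup.card_le_of_le inf_le_right
    have hcen := ih (M ⊔ C) hab (fun B hB => hceq ▸ hmax B hB) (by omega)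
    -- `V C` is abelian, hence `V ≤ M C`
    have hVC : ∀ x ∈ V ⊔ C, ∀ y ∈ V ⊔ C, x * y = y * x :=
      sup_abelian V C hV hCab (fun x hx y hy => (hcen y (Subgroup.mem_sup_right hy) x hx).symm)
    have heq : M ⊔ C = V ⊔ C := by
      refine Subgroup.eq_of_le_of_card_ge (sup_le_sup_right hMV C) ?_
      rw [hceq]
      exact hmax _ hVC
    have hVle : V ≤ M ⊔ C := by rw [heq]; exact le_sup_left
    -- `[A, V]` lies in all terms of the lower central series
    have hlow : ∀ k : ℕ, ∀ x ∈ A, ∀ w ∈ V, (⁅x, w⁆ : T) ∈ (⊤ : Subgroup T).lowerCentralSeries k := by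
      intro k
      induction k with
      | zero =>
        intro x _ w _
        rw [Subgroup.lowerCentralSeries_zero]
        exact Subgroup.mem_top _
      | succ k ihk =>
        intro x hx w hw
        set L := (⊤ : Subgroup T).lowerCentralSeries (k + 1) with hL
        have hLn : L.Normal := inferInstance
        let Z : Subgroup T := (Subgroup.centralizer {(QuotientGroup.mk x : T ⧸ L)}).comap (QuotientGroup.mk' L)
        have hZ : ∀ y : T, y ∈ Z ↔ (⁅x, y⁆ : T) ∈ L := by
          intro y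
          have h0 : (⁅x, y⁆ : T) ∈ L ↔ ((⁅x, y⁆ : T) : T ⧸ L) = 1 := (QuotientGroup.eq_one_iff _).symm
          have h1 : ((⁅x, y⁆ : T) : T ⧸ L) = ⁅(x : T ⧸ L), (y : T ⧸ L)⁆ := rfl
          rw [h0, h1, commutatorElement_eq_one_iff_mul_comm]
          change (QuotientGroup.mk' L y) ∈ Subgroup.centralizer {(QuotientGroup.mk x : T ⧸ L)} ↔ _
          rw [Subgroup.mem_centralizer_iff]
          constructor
          · intro h2
            exact h2 _ rfl
          · rintro h2 _ rfl
            exact h2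
        have hMZ : M ≤ Z := by
          rw [hMdef, Subgroup.closure_le]
          rintro _ ⟨z, hz, rfl⟩
          refine (hZ _).2 ?_
          rw [← commutatorElement_inv]
          exact L.inv_mem (Subgroup.commutator_mem_commutator (ihk z hz v hv) (Subgroup.mem_top x))
        have hCZ : C ≤ Z := by
          intro z hz
          refine (hZ _).2 ?_
          have h1 : (⁅x, z⁆ : T) = 1 := commutatorElement_eq_one_iff_mul_comm.2 (hA x hx z hz.1)
          rw [h1]
          exact L.one_mem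
        exact (hZ w).1 (sup_le hMZ hCZ (hVle hw))
    obtain ⟨k, hk⟩ := Subgroup.nilpotent_iff_lowerCentralSeries.1 hT.isNilpotent
    have h1 := hlow k a haA v1 hv1
    rw [hk, Subgroup.mem_bot, commutatorElement_eq_one_iff_mul_comm] at h1
    exact hav h1

end

end Pool.Agent.Helper46.BM
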