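import Pool.Agent.Helper4.BM.Iso
import Pool.Agent.Helper46.BM.Rep
import Pool.Agent.Helper46.BM.Quad

/-!
# The local step of the isolation theorem for `p`-groups

`exists_abelian`: a finite `p`-nilpotent group with a core free maximal `p`-subgroup `H` has an abelian normal
`p'`-subgroup on which `H` acts faithfully. `local_step`: in a finite group `Y` with a maximal `p`-subgroup `T` (`p` odd)
containing the centraliser of a central element `z` of order `p` of `T` which lies in the core of `T`, the abelian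
subgroups of `T` of maximal order lie in the core.
-/

set_option autoImplicit false

namespace Pool.Agent.Helper46.BM

open Subgroup Pool.Agent.Helper4.BM
open scoped commutatorElement

universe u

theorem exists_abelian {K : Type*} [Group K] [Finite K] {p : ℕ} [hp : Fact p.Prime] (H : Subgroup K)
    (hH : IsPGroup p H) (hmax : IsCoatom H) (hcore : H.normalCore = ⊥) (L : Subgroup K)
    (hL : ∀ x, x ∈ L ↔ (orderOf x).Coprime p) (hL1 : L ≠ ⊥) :
    ∃ B : Subgroup K, (∀ b ∈ B, (orderOf b).Coprime p) ∧ (∀ x ∈ B, ∀ y ∈ B, x * y = y * x) ∧ B.Normal ∧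
      ∀ t ∈ H, (∀ b ∈ B, t * b = b * t) → t = 1 := by
  classical
  have hLn : L.Normal := ⟨fun l hl g => by
    rw [hL] at hl ⊢
    have : g * l * g⁻¹ = MulAut.conj g l := by simp
    rw [this, MulEquiv.orderOf_eq]
    exact hl⟩
  have hLcard : ¬ p ∣ Nat.card L := by
    intro h
    obtain ⟨x, hx⟩ := exists_prime_orderOf_dvd_card' (G := L) p h
    have h1 := (hL x).1 x.2
    rw [Subgroup.orderOf_coe, hx, Nat.coprime_self] at h1
    exact hp.out.one_lt.ne' h1
  have hdisj : ∀ x ∈ L, x ∈ H → x = 1 := by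
    intro x hx hxH
    obtain ⟨k, hk⟩ := hH ⟨x, hxH⟩
    have hk' : x ^ p ^ k = 1 := congrArg Subtype.val hk
    rw [← orderOf_eq_one_iff]
    exact Nat.eq_one_of_dvd_coprimes (Nat.Coprime.pow_right k ((hL x).1 hx)) dvd_rfl (orderOf_dvd_of_pow_eq_one hk')
  -- nontrivial `H`-invariant subgroups of `L` are normal with `W H = K`
  have big : ∀ W : Subgroup K, W ≤ L → W ≠ ⊥ → (∀ h ∈ H, ∀ w ∈ W, h * w * h⁻¹ ∈ W) → W ⊔ H = ⊤ := by
    intro W hWL hW1 hWH
    apply hmax.2
    refine lt_of_le_of_ne le_sup_right ?_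
    intro h
    apply hW1
    rw [eq_bot_iff]
    intro w hw
    rw [mem_bot]
    apply hdisj w (hWL hw)
    rw [h]
    exact mem_sup_left hw
  obtain ⟨q, hq, hqd⟩ := Nat.exists_prime_and_dvd (fun h => hL1 (card_eq_one.1 h) : Nat.card L ≠ 1)
  have : Fact q.Prime := ⟨hq⟩
  let φ : H →* MulAut L := (MulAut.conjNormal (H := L)).comp H.subtype
  let _ : MulAction H (Sylow q L) := MulAction.compHom _ φ
  have hns : ¬ p ∣ Nat.card (Sylow q L) := by
    intro hd
    obtain ⟨P⟩ : Nonempty (Sylow q L) := inferInstance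
    exact hLcard ((hd.trans P.card_dvd_index).trans (index_dvd_card _))
  obtain ⟨T, hT⟩ := hH.nonempty_fixed_point_of_prime_not_dvd_card (Sylow q L) hns
  set S : Subgroup K := (T : Subgroup L).map L.subtype with hS
  have hSL : S ≤ L := by
    rintro _ ⟨x, -, rfl⟩
    exact x.2
  have hSH : ∀ h ∈ H, ∀ s ∈ S, h * s * h⁻¹ ∈ S := by
    rintro h hh _ ⟨y, hy, rfl⟩
    refine ⟨φ ⟨h, hh⟩ y, ?_, rfl⟩
    have h1 : φ ⟨h, hh⟩ • y ∈ ((φ ⟨h, hh⟩ • T : Sylow q L) : Subgroup L) := by
      rw [Sylow.pointwise_smul_def]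
      exact Subgroup.smul_mem_pointwise_smul y _ _ hy
    have h2 : (φ ⟨h, hh⟩) • T = T := hT ⟨h, hh⟩
    rw [h2] at h1
    exact h1
  have hSq : IsPGroup q S := T.isPGroup'.map _
  have hScard : Nat.card S = Nat.card (T : Subgroup L) := card_map_of_injective L.subtype_injective
  have hS1 : S ≠ ⊥ := by
    intro h
    have h1 := T.dvd_card_of_dvd_card hqd
    rw [← hScard, h, card_bot] at h1
    exact hq.one_lt.ne' (Nat.dvd_one.1 h1)
  have hSn : S.Normal := by
    rw [← normalizer_eq_top_iff, eq_top_iff, ← big S hSL hS1 hSH]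
    refine sup_le le_normalizer ?_
    rw [le_normalizer_iff]
    exact hSH
  have : Nontrivial S := (nontrivial_iff_ne_bot S).2 hS1
  set B : Subgroup K := (center S).map S.subtype with hB
  have hBn : B.Normal := inferInstance
  have hBS : B ≤ S := by
    rintro _ ⟨x, -, rfl⟩
    exact x.2
  have hB1 : B ≠ ⊥ := by
    intro h
    have := hSq.center_nontrivial
    obtain ⟨x, hx⟩ := exists_ne (1 : center S)
    apply hx
    have h1 : ((x : S) : K) ∈ B := ⟨x, x.2, rfl⟩
    rw [h, mem_bot] at h1
    exact Subtype.ext (Subtype.ext h1)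
  have hBcomm : ∀ x ∈ B, ∀ y ∈ B, x * y = y * x := by
    rintro _ ⟨x, hx, rfl⟩ _ ⟨y, hy, rfl⟩
    exact congrArg Subtype.val (mem_center_iff.1 hy x)
  refine ⟨B, fun b hb => (hL b).1 (hSL (hBS hb)), hBcomm, hBn, ?_⟩
  intro t ht htB
  set F : Subgroup K := H ⊓ centralizer (B : Set K) with hF
  have hFn : F.Normal := by
    rw [← normalizer_eq_top_iff, eq_top_iff, ← big B (hBS.trans hSL) hB1 (fun h _ b hb => hBn.conj_mem b hb h)]
    refine sup_le ?_ ?_
    · rw [le_normalizer_iff]
      intro b hb f hf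
      have h1 : b * f = f * b := (mem_centralizer_iff.1 hf.2) b hb
      rw [h1, mul_inv_cancel_right]
      exact hf
    · rw [le_normalizer_iff]
      intro h hh f hf
      have hCn : (centralizer (B : Set K)).Normal := inferInstance
      exact ⟨H.mul_mem (H.mul_mem hh hf.1) (H.inv_mem hh), hCn.conj_mem f hf.2 h⟩
  have h1 : F ≤ H.normalCore := normal_le_normalCore.2 inf_le_left
  rw [hcore] at h1
  apply mem_bot.1
  apply h1
  exact ⟨ht, mem_centralizer_iff.2 fun b hb => (htB b hb).symm⟩

/-- In a finite group with a maximal `p`-subgroup `T`, `p` odd, such that `T` is not normal, `z` is a central element of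
order `p` of `T` lying in the core of `T` whose centraliser is contained in `T`, and the isolation theorem holds in
`Y / core`: the abelian subgroups of `T` of maximal order lie in the core. -/
theorem local_step {Y : Type u} [Group Y] [Finite Y] {p : ℕ} [hp : Fact p.Prime] (hp2 : p ≠ 2) (T : Subgroup Y)
    (hT : IsPGroup p T) (hTmax : IsCoatom T) (hTn : ¬ T.Normal) (C : Subgroup Y) [hCn : C.Normal] (hCT : C ≤ T)
    (hCmax : ∀ N : Subgroup Y, N.Normal → N ≤ T → N ≤ C) (z : Y) (hzo : orderOf z = p)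
    (hzc : ∀ m ∈ T, m * z = z * m) (hcen : ∀ g, g * z = z * g → g ∈ T) (hzC : z ∈ C)
    (IH : ∀ H : Subgroup (Y ⧸ C), Nat.card H < Nat.card T → IsCoatom H → H.normalCore = ⊥ → IsPGroup p H →
      ∀ w ∈ H, orderOf w = p → (∀ m ∈ H, m * w = w * m) → Good H p w)
    (A : Subgroup Y) (hAT : A ≤ T) (hA : ∀ x ∈ A, ∀ y ∈ A, x * y = y * x)
    (hAmax : ∀ B : Subgroup Y, B ≤ T → (∀ x ∈ B, ∀ y ∈ B, x * y = y * x) → Nat.card B ≤ Nat.card A) :
    A ≤ C := by
  classical
  set V : Subgroup Y := normalClosure {z} with hV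
  have hzV : z ∈ V := subset_normalClosure rfl
  have hVC : V ≤ C := normalClosure_le_normal (Set.singleton_subset_iff.2 hzC)
  have hVcen : V ≤ centralizer (C : Set Y) := by
    apply normalClosure_le_normal
    rw [Set.singleton_subset_iff]
    exact mem_centralizer_iff.2 fun c hc => hzc c (hCT hc)
  have hVab : ∀ x ∈ V, ∀ y ∈ V, x * y = y * x := fun x hx y hy => mem_centralizer_iff.1 (hVcen hy) x (hVC hx)
  have hVp : ∀ v ∈ V, v ^ p = 1 := by
    intro v hv
    rw [hV, normalClosure] at hv
    have hle : ∀ x ∈ closure (Group.conjugatesOfSet ({z} : Set Y)), x ∈ V := fun x hx => hx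
    induction hv using closure_induction with
    | mem x hx =>
      obtain ⟨_, rfl, hx2⟩ := Group.mem_conjugatesOfSet_iff.1 hx
      obtain ⟨c, rfl⟩ := isConj_iff.1 hx2
      rw [conj_pow, ← hzo, pow_orderOf_eq_one, mul_one, mul_inv_cancel]
    | one => exact one_pow p
    | mul x y hx hy h1 h2 =>
      have h3 : Commute x y := hVab x (hle x hx) y (hle y hy)
      rw [h3.mul_pow, h1, h2, one_mul]
    | inv x _ h1 => rw [inv_pow, h1, inv_one]
  have hCV : ∀ g, (∀ v ∈ V, g * v = v * g) → g ∈ C := by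
    have hn : (centralizer (V : Set Y)).Normal := inferInstance
    have h1 : centralizer (V : Set Y) ≤ C := by
      apply hCmax _ hn
      intro g hg
      exact hcen g ((mem_centralizer_iff.1 hg) z hzV).symm
    intro g hg
    exact h1 (mem_centralizer_iff.2 fun v hv => (hg v hv).symm)
  have hCVc : ∀ c ∈ C, ∀ v ∈ V, c * v = v * c := fun c hc v hv => mem_centralizer_iff.1 (hVcen hv) c hc
  -- the quotient
  set π := QuotientGroup.mk' C with hπ
  have hπs : Function.Surjective π := QuotientGroup.mk'_surjective C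
  have hπk : π.ker = C := QuotientGroup.ker_mk' C
  set H : Subgroup (Y ⧸ C) := T.map π with hH
  have hHc : H.comap π = T := comap_map_eq_self (by rw [hπk]; exact hCT)
  have hHp : IsPGroup p H := hT.map π
  have hHmax : IsCoatom H := by
    constructor
    · intro h
      apply hTmax.1
      rw [← hHc, h, comap_top]
    · intro b hb
      have h1 : T < b.comap π := by
        rw [← hHc]
        exact (comap_lt_comap_of_surjective hπs).2 hb
      rw [← map_comap_eq_self_of_surjective hπs b, hTmax.2 _ h1, ← MonoidHom.range_eq_map, MonoidHom.range_eq_top.2 hπs]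
  have hHcore : H.normalCore = ⊥ := by
    have h1 : (H.normalCore).comap π ≤ C := by
      apply hCmax _ inferInstance
      rw [← hHc]
      exact comap_mono (normalCore_le H)
    rw [eq_bot_iff, ← map_comap_eq_self_of_surjective hπs H.normalCore]
    rintro _ ⟨x, hx, rfl⟩
    rw [mem_bot]
    exact (QuotientGroup.eq_one_iff x).2 (h1 hx)
  have hH1 : H ≠ ⊥ := by
    intro h
    apply hTn
    have h1 : T = C := by
      rw [← hHc, h]
      exact hπk
    rw [h1]
    exact hCn
  have hHcard : Nat.card H < Nat.card T := by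
    have h1 : Function.Surjective (π.subgroupMap T) := π.subgroupMap_surjective T
    refine lt_of_le_of_ne (Nat.card_le_card_of_surjective _ h1) ?_
    intro h2
    have h3 : Function.Injective (π.subgroupMap T) := ((Nat.bijective_iff_surjective_and_card _).2 ⟨h1, h2.symm⟩).1
    have h4 : (⟨z, hCT hzC⟩ : T) = 1 := by
      apply h3
      rw [map_one]
      apply Subtype.ext
      exact (QuotientGroup.eq_one_iff z).2 hzC
    have h5 : z = 1 := congrArg Subtype.val h4
    rw [h5, orderOf_one] at hzo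
    exact hp.out.one_lt.ne hzo
  have : Group.IsNilpotent H := hHp.isNilpotent
  have : Nontrivial H := (nontrivial_iff_ne_bot H).2 hH1
  obtain ⟨k, hk0, hk⟩ := hHp.nontrivial_iff_card.1 inferInstance
  obtain ⟨w, hwo, hwc⟩ := exists_central (M := H) hp.out (by rw [hk]; exact dvd_pow_self p hk0.ne')
  have hgood : Good H p (w : Y ⧸ C) := IH H hHcard hHmax hHcore hHp w w.2 (by rw [Subgroup.orderOf_coe, hwo])
    (fun m hm => congrArg Subtype.val (hwc ⟨m, hm⟩))
  obtain ⟨hPC, P, hPH, -⟩ := good_pc H hgood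
  obtain ⟨L, hL⟩ := frobenius hPC
  have hL1 : L ≠ ⊥ := by
    intro h
    have h1 : IsPGroup p (⊤ : Subgroup (Y ⧸ C)) := by
      intro x
      obtain ⟨a, ha⟩ := exists_ppart hp.out (g := (x : Y ⧸ C)) (orderOf_pos _).ne'
      refine ⟨a, Subtype.ext ?_⟩
      rw [← hL, h, mem_bot] at ha
      push_cast
      exact ha
    apply hHmax.1
    rw [eq_top_iff]
    have h2 := P.is_maximal' h1 le_top
    rw [h2]
    exact hPH
  obtain ⟨B, hBo, hBab, hBn, hBf⟩ := exists_abelian H hHp hHmax hHcore L hL hL1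
  -- elements with the same image act in the same way
  have hsame : ∀ x y : Y, π x = π y → ∀ v ∈ V, x * v * x⁻¹ = y * v * y⁻¹ := by
    intro x y hxy v hv
    have h1 : x⁻¹ * y ∈ C := QuotientGroup.eq.1 hxy
    have h2 := hCVc _ h1 v hv
    calc x * v * x⁻¹ = x * (v * (x⁻¹ * y)) * y⁻¹ := by group
      _ = x * ((x⁻¹ * y) * v) * y⁻¹ := by rw [h2]
      _ = _ := by group
  have hquad : ∀ a ∈ T, (∀ v ∈ V, (⁅a, ⁅a, v⁆⁆ : Y) = 1) → a ∈ C := by
    intro a haT ha
    have h1 : π a = 1 := by
      apply hBf _ ⟨a, haT, rfl⟩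
      intro b hb
      obtain ⟨h, rfl⟩ := hπs b
      have c1 : π (h * (a * h * a⁻¹)) = π ((a * h * a⁻¹) * h) := by
        rw [map_mul, map_mul π _ h]
        apply hBab _ hb
        have : π (a * h * a⁻¹) = π a * π h * (π a)⁻¹ := by simp
        rw [this]
        exact hBn.conj_mem _ hb _
      have c2 : π (h * (a ^ 2 * h * (a ^ 2)⁻¹)) = π ((a ^ 2 * h * (a ^ 2)⁻¹) * h) := by
        rw [map_mul, map_mul π _ h]
        apply hBab _ hb
        have : π (a ^ 2 * h * (a ^ 2)⁻¹) = π (a ^ 2) * π h * (π (a ^ 2))⁻¹ := by simp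
        rw [this]
        exact hBn.conj_mem _ hb _
      have c3 : ∀ v ∈ V, h ^ orderOf (π h) * v = v * h ^ orderOf (π h) := by
        apply hCVc
        apply hπk.le
        rw [MonoidHom.mem_ker, map_pow, pow_orderOf_eq_one]
      have key := quad_group hp2 V hVab hVp a h ha c3 (hBo _ hb) (hsame _ _ c1) (hsame _ _ c2)
      rw [← map_mul, ← map_mul]
      apply QuotientGroup.eq.2
      apply hCV
      intro v hv
      have h2 := key v hv
      calc (a * h)⁻¹ * (h * a) * v = (a * h)⁻¹ * ((h * a) * v * (h * a)⁻¹) * (h * a) := by group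
        _ = (a * h)⁻¹ * ((a * h) * v * (a * h)⁻¹) * (h * a) := by rw [h2]
        _ = _ := by group
    exact hπk.le h1
  -- Thompson replacement in `T`
  have hVT : V ≤ T := hVC.trans hCT
  have hAcard : Nat.card (A.subgroupOf T) = Nat.card A := Nat.card_congr (subgroupOfEquivOfLe hAT).toEquiv
  have hrep := quad_cen (T := T) hT (V.subgroupOf T)
    (fun x hx y hy => Subtype.ext (hVab _ (mem_subgroupOf.1 hx) _ (mem_subgroupOf.1 hy)))
    (fun a ha v hv => by
      have h1 : (a : Y) ∈ C := by
        apply hquad a a.2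
        intro v hv
        exact congrArg Subtype.val (ha ⟨v, hVT hv⟩ (mem_subgroupOf.2 hv))
      exact Subtype.ext (hCVc _ h1 _ (mem_subgroupOf.1 hv)))
    (A.subgroupOf T)
    (fun x hx y hy => Subtype.ext (hA _ (mem_subgroupOf.1 hx) _ (mem_subgroupOf.1 hy)))
    (fun B hB => by
      have hc : Nat.card (B.map T.subtype) = Nat.card B := card_map_of_injective T.subtype_injective
      rw [hAcard, ← hc]
      apply hAmax
      · rintro _ ⟨x, -, rfl⟩
        exact x.2
      · rintro _ ⟨x, hx, rfl⟩ _ ⟨y, hy, rfl⟩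
        exact congrArg Subtype.val (hB x hx y hy))
  intro a ha
  apply hCV
  intro v hv
  exact congrArg Subtype.val (hrep ⟨a, hAT ha⟩ (mem_subgroupOf.2 ha) ⟨v, hVT hv⟩ (mem_subgroupOf.2 hv))

end Pool.Agent.Helper46.BM
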