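import Pool.Agent.Helper46.BM.IsoA

/-!
# The isolation theorem for `p`-groups, `p` odd

`good_of_pgroup`: `M` a finite maximal core free subgroup of a group `G`, `M` a `p`-group with `p` odd, `z` a central
element of order `p` of `M`: if `g z g⁻¹` lies in `M` then `g` lies in `M`.
-/

set_option autoImplicit false

namespace Pool.Agent.Helper46.BM

open Subgroup Pool.Agent.Helper4.BM

universe u

section

variable {G : Type u} [Group G]

theorem exists_max_card (P : Subgroup G → Prop) (hne : ∃ A, P A) (n : ℕ) (hb : ∀ A, P A → Nat.card A ≤ n) :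
    ∃ A, P A ∧ ∀ B, P B → Nat.card B ≤ Nat.card A := by
  have hn : {k : ℕ | ∃ A, P A ∧ Nat.card A = k}.Nonempty := by
    obtain ⟨A, hA⟩ := hne
    exact ⟨Nat.card A, A, hA, rfl⟩
  have hbd : BddAbove {k : ℕ | ∃ A, P A ∧ Nat.card A = k} := by
    refine ⟨n, ?_⟩
    rintro _ ⟨A, hA, rfl⟩
    exact hb A hA
  obtain ⟨A, hA, hAc⟩ := Nat.sSup_mem hn hbd
  refine ⟨A, hA, fun B hB => ?_⟩
  rw [hAc]
  exact le_csSup hbd ⟨B, hB, rfl⟩

/-- a subgroup of least order strictly between `T` and `Y` -/
theorem exists_min_above (T Y : Subgroup G) [Finite Y] (h : T < Y) :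
    ∃ H : Subgroup G, T < H ∧ H ≤ Y ∧ ∀ H' : Subgroup G, T < H' → H' ≤ H → H' = H := by
  classical
  have hex : ∃ k : ℕ, ∃ H : Subgroup G, T < H ∧ H ≤ Y ∧ Nat.card H = k := ⟨Nat.card Y, Y, h, le_rfl, rfl⟩
  obtain ⟨H, hTH, hHY, hHc⟩ := Nat.find_spec hex
  refine ⟨H, hTH, hHY, fun H' h1 h2 => ?_⟩
  have : Finite H := Finite.of_injective (inclusion hHY) (inclusion_injective hHY)
  apply eq_of_le_of_card_ge h2
  rw [hHc]
  exact Nat.find_min' hex ⟨H', h1, h2.trans hHY, rfl⟩

/-- abelian subgroups of `T` of maximal order -/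
def MA (T A : Subgroup G) : Prop :=
  A ≤ T ∧ (∀ x ∈ A, ∀ y ∈ A, x * y = y * x) ∧
    ∀ B : Subgroup G, B ≤ T → (∀ x ∈ B, ∀ y ∈ B, x * y = y * x) → Nat.card B ≤ Nat.card A

/-- their join -/
def JT (T : Subgroup G) : Subgroup G := ⨆ A : {A : Subgroup G // MA T A}, (A : Subgroup G)

theorem le_JT {T A : Subgroup G} (h : MA T A) : A ≤ JT T := le_iSup (fun A : {A : Subgroup G // MA T A} => (A : Subgroup G)) ⟨A, h⟩

theorem JT_le (T : Subgroup G) : JT T ≤ T := iSup_le fun A => A.2.1

/-- conjugates of maximal abelian subgroups -/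
theorem MA.conj {T A : Subgroup G} (h : MA T A) (g : G) (hg : ∀ x ∈ A, g * x * g⁻¹ ∈ T) :
    MA T (A.map (MulAut.conj g).toMonoidHom) := by
  refine ⟨?_, ?_, ?_⟩
  · rintro _ ⟨x, hx, rfl⟩
    exact hg x hx
  · rintro _ ⟨x, hx, rfl⟩ _ ⟨y, hy, rfl⟩
    rw [← map_mul, ← map_mul, h.2.1 x hx y hy]
  · intro B hB hB2
    have hc : Nat.card (A.map (MulAut.conj g).toMonoidHom) = Nat.card A :=
      card_map_of_injective (MulAut.conj g).injective
    rw [hc]
    exact h.2.2 B hB hB2

/-- A subgroup which conjugates the maximal abelian subgroups of `T` into `T` normalises `JT T`. -/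
theorem JT_normal (T W : Subgroup G) (h : ∀ A, MA T A → ∀ g ∈ W, ∀ x ∈ A, g * x * g⁻¹ ∈ T) :
    W ≤ normalizer ((JT T : Subgroup G) : Set G) := by
  rw [le_normalizer_iff]
  intro g hg
  have h1 : JT T ≤ (JT T).comap (MulAut.conj g).toMonoidHom := by
    apply iSup_le
    rintro ⟨A, hA⟩ x hx
    exact le_JT (hA.conj g (h A hA g hg)) ⟨x, hx, rfl⟩
  intro x hx
  exact h1 hx

theorem mem_JT {T : Subgroup G} [Finite T] {z : G} (hz : z ∈ T) (hc : ∀ m ∈ T, m * z = z * m) : z ∈ JT T := by
  obtain ⟨A, ⟨hAT, hA⟩, hmax⟩ := exists_max_card (fun A : Subgroup G => A ≤ T ∧ ∀ x ∈ A, ∀ y ∈ A, x * y = y * x)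
    ⟨⊥, bot_le, fun x hx y hy => by rw [mem_bot.1 hx, mem_bot.1 hy]⟩ (Nat.card T)
    (fun A hA => card_le_of_le hA.1)
  have h1 : ∀ x ∈ A ⊔ zpowers z, ∀ y ∈ A ⊔ zpowers z, x * y = y * x := by
    apply sup_abelian A (zpowers z) hA
    · intro x hx y hy
      obtain ⟨i, rfl⟩ := mem_zpowers_iff.1 hx
      obtain ⟨j, rfl⟩ := mem_zpowers_iff.1 hy
      rw [← zpow_add, ← zpow_add, add_comm]
    · intro x hx y hy
      obtain ⟨j, rfl⟩ := mem_zpowers_iff.1 hy
      have h2 : Commute x z := hc x (hAT hx)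
      exact h2.zpow_right j
  have h2 : A ⊔ zpowers z ≤ T := sup_le hAT (by rw [zpowers_le]; exact hz)
  have : Finite (A ⊔ zpowers z : Subgroup G) := Finite.of_injective (inclusion h2) (inclusion_injective h2)
  have h3 : A = A ⊔ zpowers z := eq_of_le_of_card_ge le_sup_left (hmax _ ⟨h2, h1⟩)
  apply le_JT (A := A) ⟨hAT, hA, fun B hB hB2 => hmax B ⟨hB, hB2⟩⟩
  rw [h3]
  exact mem_sup_right (mem_zpowers z)

/-- The normaliser of a finite subgroup containing `z` is finite if the centraliser of `z` is contained in a finite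
subgroup. -/
theorem finite_normalizer {M D : Subgroup G} (hM : Finite M) (hDM : D ≤ M) {z : G} (hz : z ∈ D)
    (hcen : ∀ g, g * z = z * g → g ∈ M) : Finite (normalizer (D : Set G)) := by
  classical
  have hD : Finite D := Finite.of_injective (inclusion hDM) (inclusion_injective hDM)
  have hmem : ∀ y : normalizer (D : Set G), (y : G) * z * (y : G)⁻¹ ∈ D := fun y => ((mem_normalizer_iff.1 y.2) z).1 hz
  let r : G → G := fun d => if h : ∃ y, y * z * y⁻¹ = d then h.choose else 1
  have hr : ∀ y : G, r (y * z * y⁻¹) * z * (r (y * z * y⁻¹))⁻¹ = y * z * y⁻¹ := by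
    intro y
    have h : ∃ y', y' * z * y'⁻¹ = y * z * y⁻¹ := ⟨y, rfl⟩
    have h1 : r (y * z * y⁻¹) = h.choose := dif_pos h
    rw [h1]
    exact h.choose_spec
  have hrM : ∀ y : G, (r (y * z * y⁻¹))⁻¹ * y ∈ M := by
    intro y
    apply hcen
    have h1 := hr y
    set s := r (y * z * y⁻¹)
    calc s⁻¹ * y * z = s⁻¹ * (y * z * y⁻¹) * y := by group
      _ = s⁻¹ * (s * z * s⁻¹) * y := by rw [h1]
      _ = z * (s⁻¹ * y) := by group
  refine Finite.of_injective (fun y : normalizer (D : Set G) =>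
    ((⟨_, hmem y⟩, ⟨_, hrM y⟩) : D × M)) ?_
  intro x y hxy
  have h1 : (x : G) * z * (x : G)⁻¹ = y * z * (y : G)⁻¹ := congrArg (fun t : D × M => (t.1 : G)) hxy
  have h2 : (r ((x : G) * z * (x : G)⁻¹))⁻¹ * x = (r ((y : G) * z * (y : G)⁻¹))⁻¹ * y :=
    congrArg (fun t : D × M => (t.2 : G)) hxy
  rw [h1] at h2
  exact Subtype.ext (mul_left_cancel h2)

/-- Normalisers of subgroups which are characteristic in `T`. -/
theorem claimA {p : ℕ} [Fact p.Prime] {M : Subgroup G} (hfin : Finite M) (hmax : IsCoatom M) (hcore : M.normalCore = ⊥)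
    (hM : IsPGroup p M) {z : G} (hz1 : z ≠ 1) {T : Subgroup G} (hTM : T ≤ M)
    (hIH : ∀ Q : Subgroup G, Q ≤ M → z ∈ Q → Nat.card T < Nat.card (normalizer (Q : Set G) ⊓ M : Subgroup G) →
      normalizer (Q : Set G) ≤ M)
    {Q : Subgroup G} (hQT : Q ≤ T) (hzQ : z ∈ Q) (hinv : normalizer (T : Set G) ≤ normalizer (Q : Set G)) :
    normalizer (Q : Set G) ≤ M := by
  rcases lt_or_eq_of_le hTM with h | h
  · obtain ⟨x, hxM, hxT, hx⟩ := exists_growth T M hM h
    apply hIH Q (hQT.trans hTM) hzQ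
    have hlt : T < normalizer (Q : Set G) ⊓ M := by
      refine lt_of_le_of_ne (le_inf (le_normalizer.trans hinv) hTM) ?_
      intro he
      apply hxT
      rw [he]
      exact ⟨hinv (mem_normalizer_iff.2 hx), hxM⟩
    have hle : (normalizer (Q : Set G) ⊓ M : Subgroup G) ≤ M := inf_le_right
    exact Set.Finite.card_lt_card (Set.Finite.subset (Set.toFinite (M : Set G)) hle) hlt
  · have h1 : M ≤ normalizer (Q : Set G) := by
      rw [← h]
      exact le_normalizer.trans hinv
    intro g hg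
    exact nor_max hmax hcore Q (hQT.trans hTM) (le_normalizer_iff.1 h1) hzQ hz1 g hg

/-- Step 1: normalisers of subgroups containing `z` lie in `M`. -/
theorem step1 {p : ℕ} [hp : Fact p.Prime] (hp2 : p ≠ 2) {M : Subgroup G} (hfin : Finite M) (hmax : IsCoatom M)
    (hcore : M.normalCore = ⊥) (hM : IsPGroup p M) {z : G} (hz : z ∈ M) (hzo : orderOf z = p)
    (hcen : ∀ m ∈ M, m * z = z * m)
    (IH : ∀ (G' : Type u) [Group G'] (H : Subgroup G'), Nat.card H < Nat.card M → Finite H → IsCoatom H →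
      H.normalCore = ⊥ → IsPGroup p H → ∀ w ∈ H, orderOf w = p → (∀ m ∈ H, m * w = w * m) → Good H p w) :
    ∀ (k : ℕ) (D : Subgroup G), D ≤ M → z ∈ D →
      Nat.card M - Nat.card (normalizer (D : Set G) ⊓ M : Subgroup G) < k → normalizer (D : Set G) ≤ M := by
  have hz1 : z ≠ 1 := by
    intro h
    rw [h, orderOf_one] at hzo
    exact hp.out.one_lt.ne hzo
  have hcM : ∀ g, g * z = z * g → g ∈ M := fun g hg => cen_max hmax hcore hz hz1 hcen g hg
  intro k
  induction k with
  | zero => intro D _ _ h; omega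
  | succ k ih =>
    intro D hDM hzD hk
    by_contra hY
    have hYf : Finite (normalizer (D : Set G)) := finite_normalizer hfin hDM hzD hcM
    set Y := normalizer (D : Set G) with hYdef
    set T : Subgroup G := Y ⊓ M with hTdef
    have hTM : T ≤ M := inf_le_right
    have hTf : Finite T := Finite.of_injective (inclusion hTM) (inclusion_injective hTM)
    have hTp : IsPGroup p T := hM.to_le hTM
    have hTY : T < Y := lt_of_le_of_ne inf_le_left (fun h => hY (h ▸ hTM))
    obtain ⟨Y1, hTY1, hY1Y, hY1min⟩ := exists_min_above T Y hTY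
    have hY1f : Finite Y1 := Finite.of_injective (inclusion hY1Y) (inclusion_injective hY1Y)
    have hY1M : ¬ Y1 ≤ M := fun h => absurd (le_inf hY1Y h) (not_le_of_gt hTY1)
    have hclaim : ∀ Q : Subgroup G, Q ≤ T → z ∈ Q → normalizer (T : Set G) ≤ normalizer (Q : Set G) →
        normalizer (Q : Set G) ≤ M := by
      intro Q hQT hzQ hinv
      apply claimA hfin hmax hcore hM hz1 hTM ?_ hQT hzQ hinv
      intro Q' hQ'M hzQ' hlt
      apply ih Q' hQ'M hzQ'
      have h1 : Nat.card (normalizer (Q' : Set G) ⊓ M : Subgroup G) ≤ Nat.card M := card_le_of_le inf_le_right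
      omega
    have hDT : D ≤ T := le_inf le_normalizer hDM
    have hTle : T ≤ Y1 := hTY1.le
    have hzT : z ∈ T := hDT hzD
    set T1 : Subgroup Y1 := T.subgroupOf Y1 with hT1
    have hT1map : T1.map Y1.subtype = T := by
      rw [hT1, subgroupOf_map_subtype, inf_eq_left]
      exact hTle
    have hT1p : IsPGroup p T1 := hTp.comap_of_injective Y1.subtype Y1.subtype_injective
    have hT1max : IsCoatom T1 := by
      constructor
      · intro h
        rw [hT1, subgroupOf_eq_top] at h
        exact absurd h (not_le_of_gt hTY1)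
      · intro b hb
        have h1 : T < b.map Y1.subtype := by
          rw [← hT1map]
          exact (map_lt_map_iff_of_injective Y1.subtype_injective).2 hb
        have h2 : b.map Y1.subtype = Y1 := hY1min _ h1 (by
          rintro _ ⟨x, -, rfl⟩
          exact x.2)
        rw [eq_top_iff]
        intro x _
        have h3 : (x : G) ∈ b.map Y1.subtype := by rw [h2]; exact x.2
        obtain ⟨y, hy, hyx⟩ := h3
        have : y = x := Subtype.ext hyx
        rw [← this]
        exact hy
    have hT1n : ¬ T1.Normal := by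
      intro h
      apply hY1M
      refine le_trans ?_ (hclaim T le_rfl hzT le_rfl)
      rw [le_normalizer_iff]
      intro y hy t ht
      exact mem_subgroupOf.1 (h.conj_mem ⟨t, hTle ht⟩ (mem_subgroupOf.2 ht) ⟨y, hy⟩)
    have hD1n : (D.subgroupOf Y1).Normal := by
      constructor
      intro d hd g
      rw [mem_subgroupOf] at hd ⊢
      exact ((mem_normalizer_iff.1 (hY1Y g.2)) (d : G)).1 hd
    have hzC : (⟨z, hTle hzT⟩ : Y1) ∈ T1.normalCore := by
      have h1 : D.subgroupOf Y1 ≤ T1.normalCore := by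
        apply normal_le_normalCore.2
        intro d hd
        exact mem_subgroupOf.2 (hDT (mem_subgroupOf.1 hd))
      exact h1 (mem_subgroupOf.2 hzD)
    have hT1card : Nat.card T1 = Nat.card T := Nat.card_congr (subgroupOfEquivOfLe hTle).toEquiv
    have hlocal : ∀ A : Subgroup Y1, A ≤ T1 → (∀ x ∈ A, ∀ y ∈ A, x * y = y * x) →
        (∀ B : Subgroup Y1, B ≤ T1 → (∀ x ∈ B, ∀ y ∈ B, x * y = y * x) → Nat.card B ≤ Nat.card A) →
        A ≤ T1.normalCore := by
      intro A hAT hA hAmax
      refine local_step hp2 T1 hT1p hT1max hT1n T1.normalCore (normalCore_le T1)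
        (fun N hN hNT => normal_le_normalCore.2 hNT) ⟨z, hTle hzT⟩ (by rw [Subgroup.orderOf_mk]; exact hzo) ?_ ?_ hzC ?_
        A hAT hA hAmax
      · intro m hm
        exact Subtype.ext (hcen _ (hTM (mem_subgroupOf.1 hm)))
      · intro g hg
        exact mem_subgroupOf.2 ⟨hY1Y g.2, hcM _ (congrArg Subtype.val hg)⟩
      · intro H hH1 hH2 hH3 hH4 w hw1 hw2 hw3
        refine IH _ H ?_ inferInstance hH2 hH3 hH4 w hw1 hw2 hw3
        refine lt_of_lt_of_le hH1 ?_
        rw [hT1card]
        exact card_le_of_le hTM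
    -- maximal abelian subgroups of `T` lie in the core
    have hMA : ∀ A, MA T A → ∀ g ∈ Y1, ∀ x ∈ A, g * x * g⁻¹ ∈ T := by
      rintro A ⟨hAT, hA, hAmax⟩ g hg x hx
      have h1 : A.subgroupOf Y1 ≤ T1.normalCore := by
        apply hlocal
        · intro y hy
          exact mem_subgroupOf.2 (hAT (mem_subgroupOf.1 hy))
        · intro y hy w hw
          exact Subtype.ext (hA _ (mem_subgroupOf.1 hy) _ (mem_subgroupOf.1 hw))
        · intro B hB hB2
          have hc : Nat.card (B.map Y1.subtype) = Nat.card B := card_map_of_injective Y1.subtype_injective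
          have hc2 : Nat.card (A.subgroupOf Y1) = Nat.card A :=
            Nat.card_congr (subgroupOfEquivOfLe (hAT.trans hTle)).toEquiv
          rw [hc2, ← hc]
          apply hAmax
          · rintro _ ⟨y, hy, rfl⟩
            exact mem_subgroupOf.1 (hB hy)
          · rintro _ ⟨y, hy, rfl⟩ _ ⟨w, hw, rfl⟩
            exact congrArg Subtype.val (hB2 y hy w hw)
      have h2 : (⟨x, hTle (hAT hx)⟩ : Y1) ∈ T1.normalCore := h1 (mem_subgroupOf.2 hx)
      have h3 := (normalCore_normal T1).conj_mem _ h2 ⟨g, hg⟩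
      exact mem_subgroupOf.1 (normalCore_le T1 h3)
    have hJ1 : Y1 ≤ normalizer ((JT T : Subgroup G) : Set G) := JT_normal T Y1 hMA
    have hJ2 : normalizer (T : Set G) ≤ normalizer ((JT T : Subgroup G) : Set G) := by
      apply JT_normal
      intro A hA g hg x hx
      exact ((mem_normalizer_iff.1 hg) x).1 (hA.1 hx)
    exact hY1M (hJ1.trans (hclaim (JT T) (JT_le T) (mem_JT hzT (fun m hm => hcen m (hTM hm))) hJ2))

end

theorem iso_aux {p : ℕ} [hp : Fact p.Prime] (hp2 : p ≠ 2) : ∀ (n : ℕ) (G : Type u) [Group G] (M : Subgroup G),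
    Nat.card M < n → Finite M → IsCoatom M → M.normalCore = ⊥ → IsPGroup p M → ∀ z ∈ M, orderOf z = p →
      (∀ m ∈ M, m * z = z * m) → Good M p z := by
  intro n
  induction n with
  | zero => intro G _ M h; omega
  | succ n ih =>
    intro G _ M hn hfin hmax hcore hM z hz hzo hcen
    have hz1 : z ≠ 1 := by
      intro h
      rw [h, orderOf_one] at hzo
      exact hp.out.one_lt.ne hzo
    have st1 : ∀ D : Subgroup G, D ≤ M → z ∈ D → normalizer (D : Set G) ≤ M := fun D hD hzD =>
      step1 hp2 hfin hmax hcore hM hz hzo hcen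
        (fun G' _ H h1 h2 h3 h4 h5 w h6 h7 h8 => ih G' H (by omega) h2 h3 h4 h5 w h6 h7 h8) _ D hD hzD (Nat.lt_succ_self _)
    refine ⟨hz, hzo, hcen, ?_⟩
    intro g hg
    set M' : Subgroup G := M.comap (MulAut.conj g⁻¹).toMonoidHom with hM'
    have hM'mem : ∀ x, x ∈ M' ↔ g⁻¹ * x * g ∈ M := by
      intro x
      have h1 : (MulAut.conj g⁻¹).toMonoidHom x = g⁻¹ * x * g := by simp
      rw [hM', mem_comap, h1]
    have hzM' : z ∈ M' := by
      rw [hM'mem]
      apply cen_max hmax hcore hz hz1 hcen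
      have h1 := hcen _ hg
      calc g⁻¹ * z * g * z = g⁻¹ * (z * (g * z * g⁻¹)) * g := by group
        _ = g⁻¹ * (g * z * g⁻¹ * z) * g := by rw [h1]
        _ = z * (g⁻¹ * z * g) := by group
    set D : Subgroup G := M ⊓ M' with hD
    have hDM : D ≤ M := inf_le_left
    rcases lt_or_eq_of_le hDM with h | h
    · exfalso
      obtain ⟨x, hxM, hxD, hx⟩ := exists_growth D M hM h
      apply hxD
      refine ⟨hxM, (hM'mem x).2 ?_⟩
      -- `D2 = g⁻¹ D g`
      set D2 : Subgroup G := D.comap (MulAut.conj g).toMonoidHom with hD2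
      have hD2mem : ∀ y, y ∈ D2 ↔ g * y * g⁻¹ ∈ D := by
        intro y
        have h1 : (MulAut.conj g).toMonoidHom y = g * y * g⁻¹ := by simp
        rw [hD2, mem_comap, h1]
      have hD2M : D2 ≤ M := by
        intro y hy
        have h1 := (hM'mem _).1 ((hD2mem y).1 hy).2
        have h2 : g⁻¹ * (g * y * g⁻¹) * g = y := by group
        rwa [h2] at h1
      have hzD2 : z ∈ D2 := by
        rw [hD2mem]
        refine ⟨hg, (hM'mem _).2 ?_⟩
        have h2 : g⁻¹ * (g * z * g⁻¹) * g = z := by group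
        rw [h2]
        exact hz
      apply st1 D2 hD2M hzD2
      rw [mem_normalizer_iff]
      intro y
      rw [hD2mem, hD2mem, hx (g * y * g⁻¹)]
      have h2 : g * (g⁻¹ * x * g * y * (g⁻¹ * x * g)⁻¹) * g⁻¹ = x * (g * y * g⁻¹) * x⁻¹ := by group
      rw [h2]
    · have h1 : ∀ m ∈ M, g⁻¹ * m * g ∈ M := by
        intro m hm
        have h2 : m ∈ D := by rw [h]; exact hm
        exact (hM'mem m).1 h2.2
      have h2 : M.map (MulAut.conj g⁻¹).toMonoidHom = M := by
        apply eq_of_le_of_card_ge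
        · rintro _ ⟨m, hm, rfl⟩
          have h3 := h1 m hm
          simpa using h3
        · have hc : Nat.card (M.map (MulAut.conj g⁻¹).toMonoidHom) = Nat.card M :=
            card_map_of_injective (MulAut.conj g⁻¹).injective
          rw [hc]
      have h3 : g⁻¹ ∈ normalizer (M : Set G) := by
        rw [mem_normalizer_iff]
        intro m
        constructor
        · intro hm
          rw [inv_inv]
          exact h1 m hm
        · intro hm
          rw [inv_inv] at hm
          rw [← h2] at hm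
          obtain ⟨m', hm', h4⟩ := hm
          have h5 : g⁻¹ * m' * g = g⁻¹ * m * g := by
            rw [← h4]; simp
          have h6 : m' = m := by simpa using h5
          rw [← h6]
          exact hm'
      have h4 := inv_mem (st1 M le_rfl hz h3)
      rwa [inv_inv] at h4

/-- **Isolation theorem** for `p`-groups, `p` odd. -/
theorem good_of_pgroup {G : Type u} [Group G] {M : Subgroup G} (hfin : Finite M) (hmax : IsCoatom M)
    (hcore : M.normalCore = ⊥) {p : ℕ} (hp : p.Prime) (hp2 : p ≠ 2) (hM : IsPGroup p M) {z : G} (hz : z ∈ M)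
    (hzo : orderOf z = p) (hcen : ∀ m ∈ M, m * z = z * m) : Good M p z := by
  have : Fact p.Prime := ⟨hp⟩
  exact iso_aux hp2 _ G M (Nat.lt_succ_self _) hfin hmax hcore hM z hz hzo hcen

end Pool.Agent.Helper46.BM
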